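import Mathlib

/-!
# A finite check: four choices of representatives of the cells of a square are impossible

The elements of a set `G` with five elements have types: bit `0`, `1` for the two circuits, bit `2`,
`3` for the two cocircuits.
-/

set_option autoImplicit false

namespace Pool.Agent.H34CK

/-- The permutations of `0, 1, 2, 3, 4`. -/
def perms : List (ℕ × ℕ × ℕ × ℕ × ℕ) := [
  (0, 1, 2, 3, 4), (0, 1, 2, 4, 3), (0, 1, 3, 2, 4), (0, 1, 3, 4, 2), (0, 1, 4, 2, 3),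
  (0, 1, 4, 3, 2), (0, 2, 1, 3, 4), (0, 2, 1, 4, 3), (0, 2, 3, 1, 4), (0, 2, 3, 4, 1),
  (0, 2, 4, 1, 3), (0, 2, 4, 3, 1), (0, 3, 1, 2, 4), (0, 3, 1, 4, 2), (0, 3, 2, 1, 4),
  (0, 3, 2, 4, 1), (0, 3, 4, 1, 2), (0, 3, 4, 2, 1), (0, 4, 1, 2, 3), (0, 4, 1, 3, 2),
  (0, 4, 2, 1, 3), (0, 4, 2, 3, 1), (0, 4, 3, 1, 2), (0, 4, 3, 2, 1), (1, 0, 2, 3, 4),
  (1, 0, 2, 4, 3), (1, 0, 3, 2, 4), (1, 0, 3, 4, 2), (1, 0, 4, 2, 3), (1, 0, 4, 3, 2),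
  (1, 2, 0, 3, 4), (1, 2, 0, 4, 3), (1, 2, 3, 0, 4), (1, 2, 3, 4, 0), (1, 2, 4, 0, 3),
  (1, 2, 4, 3, 0), (1, 3, 0, 2, 4), (1, 3, 0, 4, 2), (1, 3, 2, 0, 4), (1, 3, 2, 4, 0),
  (1, 3, 4, 0, 2), (1, 3, 4, 2, 0), (1, 4, 0, 2, 3), (1, 4, 0, 3, 2), (1, 4, 2, 0, 3),
  (1, 4, 2, 3, 0), (1, 4, 3, 0, 2), (1, 4, 3, 2, 0), (2, 0, 1, 3, 4), (2, 0, 1, 4, 3),
  (2, 0, 3, 1, 4), (2, 0, 3, 4, 1), (2, 0, 4, 1, 3), (2, 0, 4, 3, 1), (2, 1, 0, 3, 4),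
  (2, 1, 0, 4, 3), (2, 1, 3, 0, 4), (2, 1, 3, 4, 0), (2, 1, 4, 0, 3), (2, 1, 4, 3, 0),
  (2, 3, 0, 1, 4), (2, 3, 0, 4, 1), (2, 3, 1, 0, 4), (2, 3, 1, 4, 0), (2, 3, 4, 0, 1),
  (2, 3, 4, 1, 0), (2, 4, 0, 1, 3), (2, 4, 0, 3, 1), (2, 4, 1, 0, 3), (2, 4, 1, 3, 0),
  (2, 4, 3, 0, 1), (2, 4, 3, 1, 0), (3, 0, 1, 2, 4), (3, 0, 1, 4, 2), (3, 0, 2, 1, 4),
  (3, 0, 2, 4, 1), (3, 0, 4, 1, 2), (3, 0, 4, 2, 1), (3, 1, 0, 2, 4), (3, 1, 0, 4, 2),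
  (3, 1, 2, 0, 4), (3, 1, 2, 4, 0), (3, 1, 4, 0, 2), (3, 1, 4, 2, 0), (3, 2, 0, 1, 4),
  (3, 2, 0, 4, 1), (3, 2, 1, 0, 4), (3, 2, 1, 4, 0), (3, 2, 4, 0, 1), (3, 2, 4, 1, 0),
  (3, 4, 0, 1, 2), (3, 4, 0, 2, 1), (3, 4, 1, 0, 2), (3, 4, 1, 2, 0), (3, 4, 2, 0, 1),
  (3, 4, 2, 1, 0), (4, 0, 1, 2, 3), (4, 0, 1, 3, 2), (4, 0, 2, 1, 3), (4, 0, 2, 3, 1),
  (4, 0, 3, 1, 2), (4, 0, 3, 2, 1), (4, 1, 0, 2, 3), (4, 1, 0, 3, 2), (4, 1, 2, 0, 3),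
  (4, 1, 2, 3, 0), (4, 1, 3, 0, 2), (4, 1, 3, 2, 0), (4, 2, 0, 1, 3), (4, 2, 0, 3, 1),
  (4, 2, 1, 0, 3), (4, 2, 1, 3, 0), (4, 2, 3, 0, 1), (4, 2, 3, 1, 0), (4, 3, 0, 1, 2),
  (4, 3, 0, 2, 1), (4, 3, 1, 0, 2), (4, 3, 1, 2, 0), (4, 3, 2, 0, 1), (4, 3, 2, 1, 0)]

/-- The allowed types. -/
def codes : List ℕ := [0, 1, 2, 3, 4, 8, 12, 5, 9, 6, 10]

/-- The four masks. -/
def ent (a b c d r t : ℕ) : ℕ × ℕ × ℕ × ℕ :=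
  (2 ^ a + 2 ^ b + t % 2 * 2 ^ r, 2 ^ c + 2 ^ d + t / 2 % 2 * 2 ^ r,
    2 ^ a + 2 ^ c + t / 4 % 2 * 2 ^ r, 2 ^ b + 2 ^ d + t / 8 * 2 ^ r)

/-- All the masks. -/
def V : List (ℕ × ℕ × ℕ × ℕ) := [
  (3, 12, 5, 10), (19, 12, 5, 10), (3, 28, 5, 10), (19, 28, 5, 10), (3, 12, 21, 10),
  (3, 12, 5, 26), (3, 12, 21, 26), (19, 12, 21, 10), (19, 12, 5, 26), (3, 28, 21, 10),
  (3, 28, 5, 26), (3, 20, 5, 18), (11, 20, 5, 18), (3, 28, 5, 18), (11, 28, 5, 18),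
  (3, 20, 13, 18), (3, 20, 5, 26), (3, 20, 13, 26), (11, 20, 13, 18), (11, 20, 5, 26),
  (3, 28, 13, 18), (3, 28, 5, 26), (3, 12, 9, 6), (19, 12, 9, 6), (3, 28, 9, 6), (19, 28, 9, 6),
  (3, 12, 25, 6), (3, 12, 9, 22), (3, 12, 25, 22), (19, 12, 25, 6), (19, 12, 9, 22),
  (3, 28, 25, 6), (3, 28, 9, 22), (3, 24, 9, 18), (7, 24, 9, 18), (3, 28, 9, 18), (7, 28, 9, 18),
  (3, 24, 13, 18), (3, 24, 9, 22), (3, 24, 13, 22), (7, 24, 13, 18), (7, 24, 9, 22),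
  (3, 28, 13, 18), (3, 28, 9, 22), (3, 20, 17, 6), (11, 20, 17, 6), (3, 28, 17, 6),
  (11, 28, 17, 6), (3, 20, 25, 6), (3, 20, 17, 14), (3, 20, 25, 14), (11, 20, 25, 6),
  (11, 20, 17, 14), (3, 28, 25, 6), (3, 28, 17, 14), (3, 24, 17, 10), (7, 24, 17, 10),
  (3, 28, 17, 10), (7, 28, 17, 10), (3, 24, 21, 10), (3, 24, 17, 14), (3, 24, 21, 14),
  (7, 24, 21, 10), (7, 24, 17, 14), (3, 28, 21, 10), (3, 28, 17, 14), (5, 10, 3, 12),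
  (21, 10, 3, 12), (5, 26, 3, 12), (21, 26, 3, 12), (5, 10, 19, 12), (5, 10, 3, 28),
  (5, 10, 19, 28), (21, 10, 19, 12), (21, 10, 3, 28), (5, 26, 19, 12), (5, 26, 3, 28),
  (5, 18, 3, 20), (13, 18, 3, 20), (5, 26, 3, 20), (13, 26, 3, 20), (5, 18, 11, 20),
  (5, 18, 3, 28), (5, 18, 11, 28), (13, 18, 11, 20), (13, 18, 3, 28), (5, 26, 11, 20),
  (5, 26, 3, 28), (5, 10, 9, 6), (21, 10, 9, 6), (5, 26, 9, 6), (21, 26, 9, 6), (5, 10, 25, 6),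
  (5, 10, 9, 22), (5, 10, 25, 22), (21, 10, 25, 6), (21, 10, 9, 22), (5, 26, 25, 6),
  (5, 26, 9, 22), (5, 24, 9, 20), (7, 24, 9, 20), (5, 26, 9, 20), (7, 26, 9, 20),
  (5, 24, 11, 20), (5, 24, 9, 22), (5, 24, 11, 22), (7, 24, 11, 20), (7, 24, 9, 22),
  (5, 26, 11, 20), (5, 26, 9, 22), (5, 18, 17, 6), (13, 18, 17, 6), (5, 26, 17, 6),
  (13, 26, 17, 6), (5, 18, 25, 6), (5, 18, 17, 14), (5, 18, 25, 14), (13, 18, 25, 6),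
  (13, 18, 17, 14), (5, 26, 25, 6), (5, 26, 17, 14), (5, 24, 17, 12), (7, 24, 17, 12),
  (5, 26, 17, 12), (7, 26, 17, 12), (5, 24, 19, 12), (5, 24, 17, 14), (5, 24, 19, 14),
  (7, 24, 19, 12), (7, 24, 17, 14), (5, 26, 19, 12), (5, 26, 17, 14), (9, 6, 3, 12),
  (25, 6, 3, 12), (9, 22, 3, 12), (25, 22, 3, 12), (9, 6, 19, 12), (9, 6, 3, 28), (9, 6, 19, 28),
  (25, 6, 19, 12), (25, 6, 3, 28), (9, 22, 19, 12), (9, 22, 3, 28), (9, 18, 3, 24),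
  (13, 18, 3, 24), (9, 22, 3, 24), (13, 22, 3, 24), (9, 18, 7, 24), (9, 18, 3, 28),
  (9, 18, 7, 28), (13, 18, 7, 24), (13, 18, 3, 28), (9, 22, 7, 24), (9, 22, 3, 28),
  (9, 6, 5, 10), (25, 6, 5, 10), (9, 22, 5, 10), (25, 22, 5, 10), (9, 6, 21, 10), (9, 6, 5, 26),
  (9, 6, 21, 26), (25, 6, 21, 10), (25, 6, 5, 26), (9, 22, 21, 10), (9, 22, 5, 26),
  (9, 20, 5, 24), (11, 20, 5, 24), (9, 22, 5, 24), (11, 22, 5, 24), (9, 20, 7, 24),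
  (9, 20, 5, 26), (9, 20, 7, 26), (11, 20, 7, 24), (11, 20, 5, 26), (9, 22, 7, 24),
  (9, 22, 5, 26), (9, 18, 17, 10), (13, 18, 17, 10), (9, 22, 17, 10), (13, 22, 17, 10),
  (9, 18, 21, 10), (9, 18, 17, 14), (9, 18, 21, 14), (13, 18, 21, 10), (13, 18, 17, 14),
  (9, 22, 21, 10), (9, 22, 17, 14), (9, 20, 17, 12), (11, 20, 17, 12), (9, 22, 17, 12),
  (11, 22, 17, 12), (9, 20, 19, 12), (9, 20, 17, 14), (9, 20, 19, 14), (11, 20, 19, 12),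
  (11, 20, 17, 14), (9, 22, 19, 12), (9, 22, 17, 14), (17, 6, 3, 20), (25, 6, 3, 20),
  (17, 14, 3, 20), (25, 14, 3, 20), (17, 6, 11, 20), (17, 6, 3, 28), (17, 6, 11, 28),
  (25, 6, 11, 20), (25, 6, 3, 28), (17, 14, 11, 20), (17, 14, 3, 28), (17, 10, 3, 24),
  (21, 10, 3, 24), (17, 14, 3, 24), (21, 14, 3, 24), (17, 10, 7, 24), (17, 10, 3, 28),
  (17, 10, 7, 28), (21, 10, 7, 24), (21, 10, 3, 28), (17, 14, 7, 24), (17, 14, 3, 28),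
  (17, 6, 5, 18), (25, 6, 5, 18), (17, 14, 5, 18), (25, 14, 5, 18), (17, 6, 13, 18),
  (17, 6, 5, 26), (17, 6, 13, 26), (25, 6, 13, 18), (25, 6, 5, 26), (17, 14, 13, 18),
  (17, 14, 5, 26), (17, 12, 5, 24), (19, 12, 5, 24), (17, 14, 5, 24), (19, 14, 5, 24),
  (17, 12, 7, 24), (17, 12, 5, 26), (17, 12, 7, 26), (19, 12, 7, 24), (19, 12, 5, 26),
  (17, 14, 7, 24), (17, 14, 5, 26), (17, 10, 9, 18), (21, 10, 9, 18), (17, 14, 9, 18),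
  (21, 14, 9, 18), (17, 10, 13, 18), (17, 10, 9, 22), (17, 10, 13, 22), (21, 10, 13, 18),
  (21, 10, 9, 22), (17, 14, 13, 18), (17, 14, 9, 22), (17, 12, 9, 20), (19, 12, 9, 20),
  (17, 14, 9, 20), (19, 14, 9, 20), (17, 12, 11, 20), (17, 12, 9, 22), (17, 12, 11, 22),
  (19, 12, 11, 20), (19, 12, 9, 22), (17, 14, 11, 20), (17, 14, 9, 22), (3, 12, 6, 9),
  (19, 12, 6, 9), (3, 28, 6, 9), (19, 28, 6, 9), (3, 12, 22, 9), (3, 12, 6, 25), (3, 12, 22, 25),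
  (19, 12, 22, 9), (19, 12, 6, 25), (3, 28, 22, 9), (3, 28, 6, 25), (3, 20, 6, 17),
  (11, 20, 6, 17), (3, 28, 6, 17), (11, 28, 6, 17), (3, 20, 14, 17), (3, 20, 6, 25),
  (3, 20, 14, 25), (11, 20, 14, 17), (11, 20, 6, 25), (3, 28, 14, 17), (3, 28, 6, 25),
  (3, 12, 10, 5), (19, 12, 10, 5), (3, 28, 10, 5), (19, 28, 10, 5), (3, 12, 26, 5),
  (3, 12, 10, 21), (3, 12, 26, 21), (19, 12, 26, 5), (19, 12, 10, 21), (3, 28, 26, 5),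
  (3, 28, 10, 21), (3, 24, 10, 17), (7, 24, 10, 17), (3, 28, 10, 17), (7, 28, 10, 17),
  (3, 24, 14, 17), (3, 24, 10, 21), (3, 24, 14, 21), (7, 24, 14, 17), (7, 24, 10, 21),
  (3, 28, 14, 17), (3, 28, 10, 21), (3, 20, 18, 5), (11, 20, 18, 5), (3, 28, 18, 5),
  (11, 28, 18, 5), (3, 20, 26, 5), (3, 20, 18, 13), (3, 20, 26, 13), (11, 20, 26, 5),
  (11, 20, 18, 13), (3, 28, 26, 5), (3, 28, 18, 13), (3, 24, 18, 9), (7, 24, 18, 9),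
  (3, 28, 18, 9), (7, 28, 18, 9), (3, 24, 22, 9), (3, 24, 18, 13), (3, 24, 22, 13),
  (7, 24, 22, 9), (7, 24, 18, 13), (3, 28, 22, 9), (3, 28, 18, 13), (6, 9, 3, 12),
  (22, 9, 3, 12), (6, 25, 3, 12), (22, 25, 3, 12), (6, 9, 19, 12), (6, 9, 3, 28), (6, 9, 19, 28),
  (22, 9, 19, 12), (22, 9, 3, 28), (6, 25, 19, 12), (6, 25, 3, 28), (6, 17, 3, 20),
  (14, 17, 3, 20), (6, 25, 3, 20), (14, 25, 3, 20), (6, 17, 11, 20), (6, 17, 3, 28),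
  (6, 17, 11, 28), (14, 17, 11, 20), (14, 17, 3, 28), (6, 25, 11, 20), (6, 25, 3, 28),
  (6, 9, 10, 5), (22, 9, 10, 5), (6, 25, 10, 5), (22, 25, 10, 5), (6, 9, 26, 5), (6, 9, 10, 21),
  (6, 9, 26, 21), (22, 9, 26, 5), (22, 9, 10, 21), (6, 25, 26, 5), (6, 25, 10, 21),
  (6, 24, 10, 20), (7, 24, 10, 20), (6, 25, 10, 20), (7, 25, 10, 20), (6, 24, 11, 20),
  (6, 24, 10, 21), (6, 24, 11, 21), (7, 24, 11, 20), (7, 24, 10, 21), (6, 25, 11, 20),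
  (6, 25, 10, 21), (6, 17, 18, 5), (14, 17, 18, 5), (6, 25, 18, 5), (14, 25, 18, 5),
  (6, 17, 26, 5), (6, 17, 18, 13), (6, 17, 26, 13), (14, 17, 26, 5), (14, 17, 18, 13),
  (6, 25, 26, 5), (6, 25, 18, 13), (6, 24, 18, 12), (7, 24, 18, 12), (6, 25, 18, 12),
  (7, 25, 18, 12), (6, 24, 19, 12), (6, 24, 18, 13), (6, 24, 19, 13), (7, 24, 19, 12),
  (7, 24, 18, 13), (6, 25, 19, 12), (6, 25, 18, 13), (10, 5, 3, 12), (26, 5, 3, 12),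
  (10, 21, 3, 12), (26, 21, 3, 12), (10, 5, 19, 12), (10, 5, 3, 28), (10, 5, 19, 28),
  (26, 5, 19, 12), (26, 5, 3, 28), (10, 21, 19, 12), (10, 21, 3, 28), (10, 17, 3, 24),
  (14, 17, 3, 24), (10, 21, 3, 24), (14, 21, 3, 24), (10, 17, 7, 24), (10, 17, 3, 28),
  (10, 17, 7, 28), (14, 17, 7, 24), (14, 17, 3, 28), (10, 21, 7, 24), (10, 21, 3, 28),
  (10, 5, 6, 9), (26, 5, 6, 9), (10, 21, 6, 9), (26, 21, 6, 9), (10, 5, 22, 9), (10, 5, 6, 25),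
  (10, 5, 22, 25), (26, 5, 22, 9), (26, 5, 6, 25), (10, 21, 22, 9), (10, 21, 6, 25),
  (10, 20, 6, 24), (11, 20, 6, 24), (10, 21, 6, 24), (11, 21, 6, 24), (10, 20, 7, 24),
  (10, 20, 6, 25), (10, 20, 7, 25), (11, 20, 7, 24), (11, 20, 6, 25), (10, 21, 7, 24),
  (10, 21, 6, 25), (10, 17, 18, 9), (14, 17, 18, 9), (10, 21, 18, 9), (14, 21, 18, 9),
  (10, 17, 22, 9), (10, 17, 18, 13), (10, 17, 22, 13), (14, 17, 22, 9), (14, 17, 18, 13),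
  (10, 21, 22, 9), (10, 21, 18, 13), (10, 20, 18, 12), (11, 20, 18, 12), (10, 21, 18, 12),
  (11, 21, 18, 12), (10, 20, 19, 12), (10, 20, 18, 13), (10, 20, 19, 13), (11, 20, 19, 12),
  (11, 20, 18, 13), (10, 21, 19, 12), (10, 21, 18, 13), (18, 5, 3, 20), (26, 5, 3, 20),
  (18, 13, 3, 20), (26, 13, 3, 20), (18, 5, 11, 20), (18, 5, 3, 28), (18, 5, 11, 28),
  (26, 5, 11, 20), (26, 5, 3, 28), (18, 13, 11, 20), (18, 13, 3, 28), (18, 9, 3, 24),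
  (22, 9, 3, 24), (18, 13, 3, 24), (22, 13, 3, 24), (18, 9, 7, 24), (18, 9, 3, 28),
  (18, 9, 7, 28), (22, 9, 7, 24), (22, 9, 3, 28), (18, 13, 7, 24), (18, 13, 3, 28),
  (18, 5, 6, 17), (26, 5, 6, 17), (18, 13, 6, 17), (26, 13, 6, 17), (18, 5, 14, 17),
  (18, 5, 6, 25), (18, 5, 14, 25), (26, 5, 14, 17), (26, 5, 6, 25), (18, 13, 14, 17),
  (18, 13, 6, 25), (18, 12, 6, 24), (19, 12, 6, 24), (18, 13, 6, 24), (19, 13, 6, 24),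
  (18, 12, 7, 24), (18, 12, 6, 25), (18, 12, 7, 25), (19, 12, 7, 24), (19, 12, 6, 25),
  (18, 13, 7, 24), (18, 13, 6, 25), (18, 9, 10, 17), (22, 9, 10, 17), (18, 13, 10, 17),
  (22, 13, 10, 17), (18, 9, 14, 17), (18, 9, 10, 21), (18, 9, 14, 21), (22, 9, 14, 17),
  (22, 9, 10, 21), (18, 13, 14, 17), (18, 13, 10, 21), (18, 12, 10, 20), (19, 12, 10, 20),
  (18, 13, 10, 20), (19, 13, 10, 20), (18, 12, 11, 20), (18, 12, 10, 21), (18, 12, 11, 21),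
  (19, 12, 11, 20), (19, 12, 10, 21), (18, 13, 11, 20), (18, 13, 10, 21), (5, 10, 6, 9),
  (21, 10, 6, 9), (5, 26, 6, 9), (21, 26, 6, 9), (5, 10, 22, 9), (5, 10, 6, 25), (5, 10, 22, 25),
  (21, 10, 22, 9), (21, 10, 6, 25), (5, 26, 22, 9), (5, 26, 6, 25), (5, 18, 6, 17),
  (13, 18, 6, 17), (5, 26, 6, 17), (13, 26, 6, 17), (5, 18, 14, 17), (5, 18, 6, 25),
  (5, 18, 14, 25), (13, 18, 14, 17), (13, 18, 6, 25), (5, 26, 14, 17), (5, 26, 6, 25),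
  (5, 10, 12, 3), (21, 10, 12, 3), (5, 26, 12, 3), (21, 26, 12, 3), (5, 10, 28, 3),
  (5, 10, 12, 19), (5, 10, 28, 19), (21, 10, 28, 3), (21, 10, 12, 19), (5, 26, 28, 3),
  (5, 26, 12, 19), (5, 24, 12, 17), (7, 24, 12, 17), (5, 26, 12, 17), (7, 26, 12, 17),
  (5, 24, 14, 17), (5, 24, 12, 19), (5, 24, 14, 19), (7, 24, 14, 17), (7, 24, 12, 19),
  (5, 26, 14, 17), (5, 26, 12, 19), (5, 18, 20, 3), (13, 18, 20, 3), (5, 26, 20, 3),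
  (13, 26, 20, 3), (5, 18, 28, 3), (5, 18, 20, 11), (5, 18, 28, 11), (13, 18, 28, 3),
  (13, 18, 20, 11), (5, 26, 28, 3), (5, 26, 20, 11), (5, 24, 20, 9), (7, 24, 20, 9),
  (5, 26, 20, 9), (7, 26, 20, 9), (5, 24, 22, 9), (5, 24, 20, 11), (5, 24, 22, 11),
  (7, 24, 22, 9), (7, 24, 20, 11), (5, 26, 22, 9), (5, 26, 20, 11), (6, 9, 5, 10),
  (22, 9, 5, 10), (6, 25, 5, 10), (22, 25, 5, 10), (6, 9, 21, 10), (6, 9, 5, 26), (6, 9, 21, 26),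
  (22, 9, 21, 10), (22, 9, 5, 26), (6, 25, 21, 10), (6, 25, 5, 26), (6, 17, 5, 18),
  (14, 17, 5, 18), (6, 25, 5, 18), (14, 25, 5, 18), (6, 17, 13, 18), (6, 17, 5, 26),
  (6, 17, 13, 26), (14, 17, 13, 18), (14, 17, 5, 26), (6, 25, 13, 18), (6, 25, 5, 26),
  (6, 9, 12, 3), (22, 9, 12, 3), (6, 25, 12, 3), (22, 25, 12, 3), (6, 9, 28, 3), (6, 9, 12, 19),
  (6, 9, 28, 19), (22, 9, 28, 3), (22, 9, 12, 19), (6, 25, 28, 3), (6, 25, 12, 19),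
  (6, 24, 12, 18), (7, 24, 12, 18), (6, 25, 12, 18), (7, 25, 12, 18), (6, 24, 13, 18),
  (6, 24, 12, 19), (6, 24, 13, 19), (7, 24, 13, 18), (7, 24, 12, 19), (6, 25, 13, 18),
  (6, 25, 12, 19), (6, 17, 20, 3), (14, 17, 20, 3), (6, 25, 20, 3), (14, 25, 20, 3),
  (6, 17, 28, 3), (6, 17, 20, 11), (6, 17, 28, 11), (14, 17, 28, 3), (14, 17, 20, 11),
  (6, 25, 28, 3), (6, 25, 20, 11), (6, 24, 20, 10), (7, 24, 20, 10), (6, 25, 20, 10),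
  (7, 25, 20, 10), (6, 24, 21, 10), (6, 24, 20, 11), (6, 24, 21, 11), (7, 24, 21, 10),
  (7, 24, 20, 11), (6, 25, 21, 10), (6, 25, 20, 11), (12, 3, 5, 10), (28, 3, 5, 10),
  (12, 19, 5, 10), (28, 19, 5, 10), (12, 3, 21, 10), (12, 3, 5, 26), (12, 3, 21, 26),
  (28, 3, 21, 10), (28, 3, 5, 26), (12, 19, 21, 10), (12, 19, 5, 26), (12, 17, 5, 24),
  (14, 17, 5, 24), (12, 19, 5, 24), (14, 19, 5, 24), (12, 17, 7, 24), (12, 17, 5, 26),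
  (12, 17, 7, 26), (14, 17, 7, 24), (14, 17, 5, 26), (12, 19, 7, 24), (12, 19, 5, 26),
  (12, 3, 6, 9), (28, 3, 6, 9), (12, 19, 6, 9), (28, 19, 6, 9), (12, 3, 22, 9), (12, 3, 6, 25),
  (12, 3, 22, 25), (28, 3, 22, 9), (28, 3, 6, 25), (12, 19, 22, 9), (12, 19, 6, 25),
  (12, 18, 6, 24), (13, 18, 6, 24), (12, 19, 6, 24), (13, 19, 6, 24), (12, 18, 7, 24),
  (12, 18, 6, 25), (12, 18, 7, 25), (13, 18, 7, 24), (13, 18, 6, 25), (12, 19, 7, 24),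
  (12, 19, 6, 25), (12, 17, 20, 9), (14, 17, 20, 9), (12, 19, 20, 9), (14, 19, 20, 9),
  (12, 17, 22, 9), (12, 17, 20, 11), (12, 17, 22, 11), (14, 17, 22, 9), (14, 17, 20, 11),
  (12, 19, 22, 9), (12, 19, 20, 11), (12, 18, 20, 10), (13, 18, 20, 10), (12, 19, 20, 10),
  (13, 19, 20, 10), (12, 18, 21, 10), (12, 18, 20, 11), (12, 18, 21, 11), (13, 18, 21, 10),
  (13, 18, 20, 11), (12, 19, 21, 10), (12, 19, 20, 11), (20, 3, 5, 18), (28, 3, 5, 18),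
  (20, 11, 5, 18), (28, 11, 5, 18), (20, 3, 13, 18), (20, 3, 5, 26), (20, 3, 13, 26),
  (28, 3, 13, 18), (28, 3, 5, 26), (20, 11, 13, 18), (20, 11, 5, 26), (20, 9, 5, 24),
  (22, 9, 5, 24), (20, 11, 5, 24), (22, 11, 5, 24), (20, 9, 7, 24), (20, 9, 5, 26),
  (20, 9, 7, 26), (22, 9, 7, 24), (22, 9, 5, 26), (20, 11, 7, 24), (20, 11, 5, 26),
  (20, 3, 6, 17), (28, 3, 6, 17), (20, 11, 6, 17), (28, 11, 6, 17), (20, 3, 14, 17),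
  (20, 3, 6, 25), (20, 3, 14, 25), (28, 3, 14, 17), (28, 3, 6, 25), (20, 11, 14, 17),
  (20, 11, 6, 25), (20, 10, 6, 24), (21, 10, 6, 24), (20, 11, 6, 24), (21, 11, 6, 24),
  (20, 10, 7, 24), (20, 10, 6, 25), (20, 10, 7, 25), (21, 10, 7, 24), (21, 10, 6, 25),
  (20, 11, 7, 24), (20, 11, 6, 25), (20, 9, 12, 17), (22, 9, 12, 17), (20, 11, 12, 17),
  (22, 11, 12, 17), (20, 9, 14, 17), (20, 9, 12, 19), (20, 9, 14, 19), (22, 9, 14, 17),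
  (22, 9, 12, 19), (20, 11, 14, 17), (20, 11, 12, 19), (20, 10, 12, 18), (21, 10, 12, 18),
  (20, 11, 12, 18), (21, 11, 12, 18), (20, 10, 13, 18), (20, 10, 12, 19), (20, 10, 13, 19),
  (21, 10, 13, 18), (21, 10, 12, 19), (20, 11, 13, 18), (20, 11, 12, 19), (9, 6, 10, 5),
  (25, 6, 10, 5), (9, 22, 10, 5), (25, 22, 10, 5), (9, 6, 26, 5), (9, 6, 10, 21), (9, 6, 26, 21),
  (25, 6, 26, 5), (25, 6, 10, 21), (9, 22, 26, 5), (9, 22, 10, 21), (9, 18, 10, 17),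
  (13, 18, 10, 17), (9, 22, 10, 17), (13, 22, 10, 17), (9, 18, 14, 17), (9, 18, 10, 21),
  (9, 18, 14, 21), (13, 18, 14, 17), (13, 18, 10, 21), (9, 22, 14, 17), (9, 22, 10, 21),
  (9, 6, 12, 3), (25, 6, 12, 3), (9, 22, 12, 3), (25, 22, 12, 3), (9, 6, 28, 3), (9, 6, 12, 19),
  (9, 6, 28, 19), (25, 6, 28, 3), (25, 6, 12, 19), (9, 22, 28, 3), (9, 22, 12, 19),
  (9, 20, 12, 17), (11, 20, 12, 17), (9, 22, 12, 17), (11, 22, 12, 17), (9, 20, 14, 17),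
  (9, 20, 12, 19), (9, 20, 14, 19), (11, 20, 14, 17), (11, 20, 12, 19), (9, 22, 14, 17),
  (9, 22, 12, 19), (9, 18, 24, 3), (13, 18, 24, 3), (9, 22, 24, 3), (13, 22, 24, 3),
  (9, 18, 28, 3), (9, 18, 24, 7), (9, 18, 28, 7), (13, 18, 28, 3), (13, 18, 24, 7),
  (9, 22, 28, 3), (9, 22, 24, 7), (9, 20, 24, 5), (11, 20, 24, 5), (9, 22, 24, 5),
  (11, 22, 24, 5), (9, 20, 26, 5), (9, 20, 24, 7), (9, 20, 26, 7), (11, 20, 26, 5),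
  (11, 20, 24, 7), (9, 22, 26, 5), (9, 22, 24, 7), (10, 5, 9, 6), (26, 5, 9, 6), (10, 21, 9, 6),
  (26, 21, 9, 6), (10, 5, 25, 6), (10, 5, 9, 22), (10, 5, 25, 22), (26, 5, 25, 6),
  (26, 5, 9, 22), (10, 21, 25, 6), (10, 21, 9, 22), (10, 17, 9, 18), (14, 17, 9, 18),
  (10, 21, 9, 18), (14, 21, 9, 18), (10, 17, 13, 18), (10, 17, 9, 22), (10, 17, 13, 22),
  (14, 17, 13, 18), (14, 17, 9, 22), (10, 21, 13, 18), (10, 21, 9, 22), (10, 5, 12, 3),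
  (26, 5, 12, 3), (10, 21, 12, 3), (26, 21, 12, 3), (10, 5, 28, 3), (10, 5, 12, 19),
  (10, 5, 28, 19), (26, 5, 28, 3), (26, 5, 12, 19), (10, 21, 28, 3), (10, 21, 12, 19),
  (10, 20, 12, 18), (11, 20, 12, 18), (10, 21, 12, 18), (11, 21, 12, 18), (10, 20, 13, 18),
  (10, 20, 12, 19), (10, 20, 13, 19), (11, 20, 13, 18), (11, 20, 12, 19), (10, 21, 13, 18),
  (10, 21, 12, 19), (10, 17, 24, 3), (14, 17, 24, 3), (10, 21, 24, 3), (14, 21, 24, 3),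
  (10, 17, 28, 3), (10, 17, 24, 7), (10, 17, 28, 7), (14, 17, 28, 3), (14, 17, 24, 7),
  (10, 21, 28, 3), (10, 21, 24, 7), (10, 20, 24, 6), (11, 20, 24, 6), (10, 21, 24, 6),
  (11, 21, 24, 6), (10, 20, 25, 6), (10, 20, 24, 7), (10, 20, 25, 7), (11, 20, 25, 6),
  (11, 20, 24, 7), (10, 21, 25, 6), (10, 21, 24, 7), (12, 3, 9, 6), (28, 3, 9, 6),
  (12, 19, 9, 6), (28, 19, 9, 6), (12, 3, 25, 6), (12, 3, 9, 22), (12, 3, 25, 22),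
  (28, 3, 25, 6), (28, 3, 9, 22), (12, 19, 25, 6), (12, 19, 9, 22), (12, 17, 9, 20),
  (14, 17, 9, 20), (12, 19, 9, 20), (14, 19, 9, 20), (12, 17, 11, 20), (12, 17, 9, 22),
  (12, 17, 11, 22), (14, 17, 11, 20), (14, 17, 9, 22), (12, 19, 11, 20), (12, 19, 9, 22),
  (12, 3, 10, 5), (28, 3, 10, 5), (12, 19, 10, 5), (28, 19, 10, 5), (12, 3, 26, 5),
  (12, 3, 10, 21), (12, 3, 26, 21), (28, 3, 26, 5), (28, 3, 10, 21), (12, 19, 26, 5),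
  (12, 19, 10, 21), (12, 18, 10, 20), (13, 18, 10, 20), (12, 19, 10, 20), (13, 19, 10, 20),
  (12, 18, 11, 20), (12, 18, 10, 21), (12, 18, 11, 21), (13, 18, 11, 20), (13, 18, 10, 21),
  (12, 19, 11, 20), (12, 19, 10, 21), (12, 17, 24, 5), (14, 17, 24, 5), (12, 19, 24, 5),
  (14, 19, 24, 5), (12, 17, 26, 5), (12, 17, 24, 7), (12, 17, 26, 7), (14, 17, 26, 5),
  (14, 17, 24, 7), (12, 19, 26, 5), (12, 19, 24, 7), (12, 18, 24, 6), (13, 18, 24, 6),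
  (12, 19, 24, 6), (13, 19, 24, 6), (12, 18, 25, 6), (12, 18, 24, 7), (12, 18, 25, 7),
  (13, 18, 25, 6), (13, 18, 24, 7), (12, 19, 25, 6), (12, 19, 24, 7), (24, 3, 9, 18),
  (28, 3, 9, 18), (24, 7, 9, 18), (28, 7, 9, 18), (24, 3, 13, 18), (24, 3, 9, 22),
  (24, 3, 13, 22), (28, 3, 13, 18), (28, 3, 9, 22), (24, 7, 13, 18), (24, 7, 9, 22),
  (24, 5, 9, 20), (26, 5, 9, 20), (24, 7, 9, 20), (26, 7, 9, 20), (24, 5, 11, 20),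
  (24, 5, 9, 22), (24, 5, 11, 22), (26, 5, 11, 20), (26, 5, 9, 22), (24, 7, 11, 20),
  (24, 7, 9, 22), (24, 3, 10, 17), (28, 3, 10, 17), (24, 7, 10, 17), (28, 7, 10, 17),
  (24, 3, 14, 17), (24, 3, 10, 21), (24, 3, 14, 21), (28, 3, 14, 17), (28, 3, 10, 21),
  (24, 7, 14, 17), (24, 7, 10, 21), (24, 6, 10, 20), (25, 6, 10, 20), (24, 7, 10, 20),
  (25, 7, 10, 20), (24, 6, 11, 20), (24, 6, 10, 21), (24, 6, 11, 21), (25, 6, 11, 20),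
  (25, 6, 10, 21), (24, 7, 11, 20), (24, 7, 10, 21), (24, 5, 12, 17), (26, 5, 12, 17),
  (24, 7, 12, 17), (26, 7, 12, 17), (24, 5, 14, 17), (24, 5, 12, 19), (24, 5, 14, 19),
  (26, 5, 14, 17), (26, 5, 12, 19), (24, 7, 14, 17), (24, 7, 12, 19), (24, 6, 12, 18),
  (25, 6, 12, 18), (24, 7, 12, 18), (25, 7, 12, 18), (24, 6, 13, 18), (24, 6, 12, 19),
  (24, 6, 13, 19), (25, 6, 13, 18), (25, 6, 12, 19), (24, 7, 13, 18), (24, 7, 12, 19),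
  (17, 6, 18, 5), (25, 6, 18, 5), (17, 14, 18, 5), (25, 14, 18, 5), (17, 6, 26, 5),
  (17, 6, 18, 13), (17, 6, 26, 13), (25, 6, 26, 5), (25, 6, 18, 13), (17, 14, 26, 5),
  (17, 14, 18, 13), (17, 10, 18, 9), (21, 10, 18, 9), (17, 14, 18, 9), (21, 14, 18, 9),
  (17, 10, 22, 9), (17, 10, 18, 13), (17, 10, 22, 13), (21, 10, 22, 9), (21, 10, 18, 13),
  (17, 14, 22, 9), (17, 14, 18, 13), (17, 6, 20, 3), (25, 6, 20, 3), (17, 14, 20, 3),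
  (25, 14, 20, 3), (17, 6, 28, 3), (17, 6, 20, 11), (17, 6, 28, 11), (25, 6, 28, 3),
  (25, 6, 20, 11), (17, 14, 28, 3), (17, 14, 20, 11), (17, 12, 20, 9), (19, 12, 20, 9),
  (17, 14, 20, 9), (19, 14, 20, 9), (17, 12, 22, 9), (17, 12, 20, 11), (17, 12, 22, 11),
  (19, 12, 22, 9), (19, 12, 20, 11), (17, 14, 22, 9), (17, 14, 20, 11), (17, 10, 24, 3),
  (21, 10, 24, 3), (17, 14, 24, 3), (21, 14, 24, 3), (17, 10, 28, 3), (17, 10, 24, 7),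
  (17, 10, 28, 7), (21, 10, 28, 3), (21, 10, 24, 7), (17, 14, 28, 3), (17, 14, 24, 7),
  (17, 12, 24, 5), (19, 12, 24, 5), (17, 14, 24, 5), (19, 14, 24, 5), (17, 12, 26, 5),
  (17, 12, 24, 7), (17, 12, 26, 7), (19, 12, 26, 5), (19, 12, 24, 7), (17, 14, 26, 5),
  (17, 14, 24, 7), (18, 5, 17, 6), (26, 5, 17, 6), (18, 13, 17, 6), (26, 13, 17, 6),
  (18, 5, 25, 6), (18, 5, 17, 14), (18, 5, 25, 14), (26, 5, 25, 6), (26, 5, 17, 14),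
  (18, 13, 25, 6), (18, 13, 17, 14), (18, 9, 17, 10), (22, 9, 17, 10), (18, 13, 17, 10),
  (22, 13, 17, 10), (18, 9, 21, 10), (18, 9, 17, 14), (18, 9, 21, 14), (22, 9, 21, 10),
  (22, 9, 17, 14), (18, 13, 21, 10), (18, 13, 17, 14), (18, 5, 20, 3), (26, 5, 20, 3),
  (18, 13, 20, 3), (26, 13, 20, 3), (18, 5, 28, 3), (18, 5, 20, 11), (18, 5, 28, 11),
  (26, 5, 28, 3), (26, 5, 20, 11), (18, 13, 28, 3), (18, 13, 20, 11), (18, 12, 20, 10),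
  (19, 12, 20, 10), (18, 13, 20, 10), (19, 13, 20, 10), (18, 12, 21, 10), (18, 12, 20, 11),
  (18, 12, 21, 11), (19, 12, 21, 10), (19, 12, 20, 11), (18, 13, 21, 10), (18, 13, 20, 11),
  (18, 9, 24, 3), (22, 9, 24, 3), (18, 13, 24, 3), (22, 13, 24, 3), (18, 9, 28, 3),
  (18, 9, 24, 7), (18, 9, 28, 7), (22, 9, 28, 3), (22, 9, 24, 7), (18, 13, 28, 3),
  (18, 13, 24, 7), (18, 12, 24, 6), (19, 12, 24, 6), (18, 13, 24, 6), (19, 13, 24, 6),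
  (18, 12, 25, 6), (18, 12, 24, 7), (18, 12, 25, 7), (19, 12, 25, 6), (19, 12, 24, 7),
  (18, 13, 25, 6), (18, 13, 24, 7), (20, 3, 17, 6), (28, 3, 17, 6), (20, 11, 17, 6),
  (28, 11, 17, 6), (20, 3, 25, 6), (20, 3, 17, 14), (20, 3, 25, 14), (28, 3, 25, 6),
  (28, 3, 17, 14), (20, 11, 25, 6), (20, 11, 17, 14), (20, 9, 17, 12), (22, 9, 17, 12),
  (20, 11, 17, 12), (22, 11, 17, 12), (20, 9, 19, 12), (20, 9, 17, 14), (20, 9, 19, 14),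
  (22, 9, 19, 12), (22, 9, 17, 14), (20, 11, 19, 12), (20, 11, 17, 14), (20, 3, 18, 5),
  (28, 3, 18, 5), (20, 11, 18, 5), (28, 11, 18, 5), (20, 3, 26, 5), (20, 3, 18, 13),
  (20, 3, 26, 13), (28, 3, 26, 5), (28, 3, 18, 13), (20, 11, 26, 5), (20, 11, 18, 13),
  (20, 10, 18, 12), (21, 10, 18, 12), (20, 11, 18, 12), (21, 11, 18, 12), (20, 10, 19, 12),
  (20, 10, 18, 13), (20, 10, 19, 13), (21, 10, 19, 12), (21, 10, 18, 13), (20, 11, 19, 12),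
  (20, 11, 18, 13), (20, 9, 24, 5), (22, 9, 24, 5), (20, 11, 24, 5), (22, 11, 24, 5),
  (20, 9, 26, 5), (20, 9, 24, 7), (20, 9, 26, 7), (22, 9, 26, 5), (22, 9, 24, 7),
  (20, 11, 26, 5), (20, 11, 24, 7), (20, 10, 24, 6), (21, 10, 24, 6), (20, 11, 24, 6),
  (21, 11, 24, 6), (20, 10, 25, 6), (20, 10, 24, 7), (20, 10, 25, 7), (21, 10, 25, 6),
  (21, 10, 24, 7), (20, 11, 25, 6), (20, 11, 24, 7), (24, 3, 17, 10), (28, 3, 17, 10),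
  (24, 7, 17, 10), (28, 7, 17, 10), (24, 3, 21, 10), (24, 3, 17, 14), (24, 3, 21, 14),
  (28, 3, 21, 10), (28, 3, 17, 14), (24, 7, 21, 10), (24, 7, 17, 14), (24, 5, 17, 12),
  (26, 5, 17, 12), (24, 7, 17, 12), (26, 7, 17, 12), (24, 5, 19, 12), (24, 5, 17, 14),
  (24, 5, 19, 14), (26, 5, 19, 12), (26, 5, 17, 14), (24, 7, 19, 12), (24, 7, 17, 14),
  (24, 3, 18, 9), (28, 3, 18, 9), (24, 7, 18, 9), (28, 7, 18, 9), (24, 3, 22, 9),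
  (24, 3, 18, 13), (24, 3, 22, 13), (28, 3, 22, 9), (28, 3, 18, 13), (24, 7, 22, 9),
  (24, 7, 18, 13), (24, 6, 18, 12), (25, 6, 18, 12), (24, 7, 18, 12), (25, 7, 18, 12),
  (24, 6, 19, 12), (24, 6, 18, 13), (24, 6, 19, 13), (25, 6, 19, 12), (25, 6, 18, 13),
  (24, 7, 19, 12), (24, 7, 18, 13), (24, 5, 20, 9), (26, 5, 20, 9), (24, 7, 20, 9),
  (26, 7, 20, 9), (24, 5, 22, 9), (24, 5, 20, 11), (24, 5, 22, 11), (26, 5, 22, 9),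
  (26, 5, 20, 11), (24, 7, 22, 9), (24, 7, 20, 11), (24, 6, 20, 10), (25, 6, 20, 10),
  (24, 7, 20, 10), (25, 7, 20, 10), (24, 6, 21, 10), (24, 6, 20, 11), (24, 6, 21, 11),
  (25, 6, 21, 10), (25, 6, 20, 11), (24, 7, 21, 10), (24, 7, 20, 11)]

theorem V_eq : V = perms.flatMap fun p =>
    codes.map fun t => ent p.1 p.2.1 p.2.2.1 p.2.2.2.1 p.2.2.2.2 t := by
  decide +kernel

/-- Bit `m` of `C`. -/
def bt (C m : ℕ) : Bool := Nat.beq (Nat.land (Nat.shiftRight C m) 1) 1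

/-- The masks with at least one element. -/
def A : ℕ := 4294967294

/-- The masks whose number of elements is not one. -/
def B : ℕ := 4294901481

/-- Orthogonality of two choices which differ exactly in the cells with `x y z w = B`. -/
def comp (x y z w : ℕ) (p q : ℕ × ℕ × ℕ × ℕ) : Bool :=
  bt x (Nat.land p.1 q.2.2.1) && bt x (Nat.land q.1 p.2.2.1) &&
  bt y (Nat.land p.1 q.2.2.2) && bt y (Nat.land q.1 p.2.2.2) &&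
  bt z (Nat.land p.2.1 q.2.2.1) && bt z (Nat.land q.2.1 p.2.2.1) &&
  bt w (Nat.land p.2.1 q.2.2.2) && bt w (Nat.land q.2.1 p.2.2.2)

/-- The last three choices. -/
def go (L M N : List (ℕ × ℕ × ℕ × ℕ)) : Bool :=
  L.all fun u => N.all fun w => !comp B A A B u w ||
    M.all fun z => !comp B B B A u z || !comp A B B B w z

/-- The check for a given first choice. -/
def chk (t : ℕ × ℕ × ℕ × ℕ) : Bool :=
  go (V.filter (comp B A A A t)) (V.filter (comp A B B A t)) (V.filter (comp A A A B t))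

theorem check : (codes.map fun t => ent 0 1 2 3 4 t).all chk = true := by
  decide +kernel

end Pool.Agent.H34CK
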