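import Pool.Agent.H34CK.Check

/-!
# Four choices of representatives of the cells of a square are impossible: the abstract form
-/

set_option autoImplicit false

namespace Pool.Agent.H34CK

open Finset

/-- The mask of a subset of `Fin 5`. -/
def mask (f : Fin 5 → Bool) : ℕ :=
  (f 0).toNat + 2 * (f 1).toNat + 4 * (f 2).toNat + 8 * (f 3).toNat + 16 * (f 4).toNat

theorem btA (f g : Fin 5 → Bool) (h : ∃ i, f i = true ∧ g i = true) :
    bt A (Nat.land (mask f) (mask g)) = true := by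
  have key : ∀ f0 f1 f2 f3 f4 g0 g1 g2 g3 g4 : Bool,
      (f0 && g0 || f1 && g1 || f2 && g2 || f3 && g3 || f4 && g4) = true →
      bt A (Nat.land (f0.toNat + 2 * f1.toNat + 4 * f2.toNat + 8 * f3.toNat + 16 * f4.toNat)
        (g0.toNat + 2 * g1.toNat + 4 * g2.toNat + 8 * g3.toNat + 16 * g4.toNat)) = true := by
    decide +kernel
  apply key
  obtain ⟨i, h1, h2⟩ := h
  fin_cases i <;> simp_all

theorem btB (f g : Fin 5 → Bool) (h : (univ.filter fun i => f i = true ∧ g i = true).card ≠ 1) :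
    bt B (Nat.land (mask f) (mask g)) = true := by
  have key : ∀ f0 f1 f2 f3 f4 g0 g1 g2 g3 g4 : Bool,
      ((f0 && g0).toNat + (f1 && g1).toNat + (f2 && g2).toNat + (f3 && g3).toNat +
        (f4 && g4).toNat) ≠ 1 →
      bt B (Nat.land (f0.toNat + 2 * f1.toNat + 4 * f2.toNat + 8 * f3.toNat + 16 * f4.toNat)
        (g0.toNat + 2 * g1.toNat + 4 * g2.toNat + 8 * g3.toNat + 16 * g4.toNat)) = true := by
    decide +kernel
  apply key
  intro h1
  apply h
  rw [card_filter, Fin.sum_univ_five]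
  refine Eq.trans ?_ h1
  have h2 : ∀ i, (if f i = true ∧ g i = true then 1 else 0) = (f i && g i).toNat := by
    intro i
    cases f i <;> cases g i <;> rfl
  simp only [h2]

theorem mask_perm (f : Fin 5 → Bool) (a b c d r : Fin 5)
    (h : Function.Injective ![a, b, c, d, r]) :
    mask f = (f a).toNat * 2 ^ (a : ℕ) + (f b).toNat * 2 ^ (b : ℕ) + (f c).toNat * 2 ^ (c : ℕ) +
      (f d).toNat * 2 ^ (d : ℕ) + (f r).toNat * 2 ^ (r : ℕ) := by
  have h1 : mask f = ∑ i : Fin 5, (f i).toNat * 2 ^ (i : ℕ) := by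
    rw [Fin.sum_univ_five]
    unfold mask
    norm_num
    ring
  have hb : Function.Bijective ![a, b, c, d, r] := Finite.injective_iff_bijective.1 h
  rw [h1, ← hb.sum_comp (fun i : Fin 5 => (f i).toNat * 2 ^ (i : ℕ)), Fin.sum_univ_five]
  rfl

theorem exists_r' : ∀ a b c d : Fin 5, (a ≠ b ∧ a ≠ c ∧ a ≠ d ∧ b ≠ c ∧ b ≠ d ∧ c ≠ d) →
    ∃ r : Fin 5, (a ≠ r ∧ b ≠ r ∧ c ≠ r ∧ d ≠ r) ∧
      perms.contains ((a : ℕ), (b : ℕ), (c : ℕ), (d : ℕ), (r : ℕ)) = true := by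
  decide +kernel

theorem exists_r (a b c d : Fin 5) (hab : a ≠ b) (hac : a ≠ c) (had : a ≠ d) (hbc : b ≠ c)
    (hbd : b ≠ d) (hcd : c ≠ d) :
    ∃ r : Fin 5, Function.Injective ![a, b, c, d, r] ∧
      ((a : ℕ), (b : ℕ), (c : ℕ), (d : ℕ), (r : ℕ)) ∈ perms := by
  obtain ⟨r, ⟨h1, h2, h3, h4⟩, h5⟩ := exists_r' a b c d ⟨hab, hac, had, hbc, hbd, hcd⟩
  refine ⟨r, ?_, by simpa using h5⟩
  intro i j hij
  fin_cases i <;> fin_cases j <;> simp_all [eq_comm]

/-- Allowed types. -/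
def Ok (x y z w : Bool) : Prop :=
  (x = false ∧ y = false) ∨ (z = false ∧ w = false) ∨ (x ≠ y ∧ z ≠ w)

theorem code (x y z w : Bool) (h : Ok x y z w) : ∃ t ∈ codes, t % 2 = x.toNat ∧
    t / 2 % 2 = y.toNat ∧ t / 4 % 2 = z.toNat ∧ t / 8 = w.toNat := by
  revert h
  unfold Ok
  revert x y z w
  decide +kernel

theorem ent_of (C D : Fin 2 → Fin 5 → Bool) (a b c d r : Fin 5)
    (h : Function.Injective ![a, b, c, d, r])
    (ha : C 0 a = true ∧ D 0 a = true ∧ C 1 a = false ∧ D 1 a = false)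
    (hb : C 0 b = true ∧ D 1 b = true ∧ C 1 b = false ∧ D 0 b = false)
    (hc : C 1 c = true ∧ D 0 c = true ∧ C 0 c = false ∧ D 1 c = false)
    (hd : C 1 d = true ∧ D 1 d = true ∧ C 0 d = false ∧ D 0 d = false)
    (ht : Ok (C 0 r) (C 1 r) (D 0 r) (D 1 r)) :
    ∃ t ∈ codes, (mask (C 0), mask (C 1), mask (D 0), mask (D 1)) =
      ent (a : ℕ) (b : ℕ) (c : ℕ) (d : ℕ) (r : ℕ) t := by
  obtain ⟨t, h0, h1, h2, h3, h4⟩ := code _ _ _ _ ht
  refine ⟨t, h0, ?_⟩
  unfold ent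
  rw [h1, h2, h3, h4, mask_perm (C 0) a b c d r h, mask_perm (C 1) a b c d r h,
    mask_perm (D 0) a b c d r h, mask_perm (D 1) a b c d r h]
  obtain ⟨a1, a2, a3, a4⟩ := ha
  obtain ⟨b1, b2, b3, b4⟩ := hb
  obtain ⟨c1, c2, c3, c4⟩ := hc
  obtain ⟨d1, d2, d3, d4⟩ := hd
  simp [a1, a2, a3, a4, b1, b2, b3, b4, c1, c2, c3, c4, d1, d2, d3, d4]

theorem mem_V (C D : Fin 2 → Fin 5 → Bool)
    (hcell : ∀ i j, ∃ x, C i x = true ∧ D j x = true ∧ C (1 - i) x = false ∧ D (1 - j) x = false)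
    (ht : ∀ x, Ok (C 0 x) (C 1 x) (D 0 x) (D 1 x)) :
    (mask (C 0), mask (C 1), mask (D 0), mask (D 1)) ∈ V := by
  obtain ⟨a, a1, a2, a3, a4⟩ := hcell 0 0
  obtain ⟨b, b1, b2, b3, b4⟩ := hcell 0 1
  obtain ⟨c, c1, c2, c3, c4⟩ := hcell 1 0
  obtain ⟨d, d1, d2, d3, d4⟩ := hcell 1 1
  have e1 : (1 : Fin 2) - 0 = 1 := by decide
  have e2 : (1 : Fin 2) - 1 = 0 := by decide
  rw [e1] at a3 a4 b3 c4
  rw [e2] at b4 c3 d3 d4
  obtain ⟨r, h1, h2⟩ := exists_r a b c d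
    (by rintro rfl; simp_all) (by rintro rfl; simp_all) (by rintro rfl; simp_all)
    (by rintro rfl; simp_all) (by rintro rfl; simp_all) (by rintro rfl; simp_all)
  obtain ⟨t, ht, he⟩ := ent_of C D a b c d r h1 ⟨a1, a2, a3, a4⟩ ⟨b1, b2, b3, b4⟩
    ⟨c1, c2, c3, c4⟩ ⟨d1, d2, d3, d4⟩ (ht r)
  rw [V_eq, List.mem_flatMap]
  exact ⟨_, h2, List.mem_map.2 ⟨t, ht, he.symm⟩⟩

/-- The representatives of the cells in the four choices. -/
def rep (k : Fin 4) (i j : Fin 2) : Bool :=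
  (k == 1 && i == 0 && j == 0) || (k == 2 && i != j) || (k == 3 && i == 1 && j == 1)

/-- **The finite check.** -/
theorem no_four {E : Type*} [DecidableEq E] (G : Finset E) (hG : G.card = 5)
    (c d : Fin 4 → Fin 2 → Finset E)
    (hcell : ∀ k i j, ∃ x ∈ G, x ∈ c k i ∧ x ∈ d k j ∧ x ∉ c k (1 - i) ∧ x ∉ d k (1 - j))
    (htype : ∀ k, ∀ x ∈ G, (∀ i, x ∉ c k i) ∨ (∀ j, x ∉ d k j) ∨
      ∃ i j, x ∈ c k i ∧ x ∈ d k j ∧ x ∉ c k (1 - i) ∧ x ∉ d k (1 - j))
    (hsame : ∀ k k' i j, rep k i j = rep k' i j → ∃ x ∈ G, x ∈ c k i ∧ x ∈ d k' j)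
    (hdiff : ∀ k k' i j, rep k i j ≠ rep k' i j →
      (G.filter fun x => x ∈ c k i ∧ x ∈ d k' j).card ≠ 1) : False := by
  classical
  have e1 : (1 : Fin 2) - 0 = 1 := by decide
  have e2 : (1 : Fin 2) - 1 = 0 := by decide
  -- a numbering of `G` in which the private elements of the first choice come first
  obtain ⟨ya, ga, a1, a2, a3, a4⟩ := hcell 0 0 0
  obtain ⟨yb, gb, b1, b2, b3, b4⟩ := hcell 0 0 1
  obtain ⟨yc, gc, c1, c2, c3, c4⟩ := hcell 0 1 0
  obtain ⟨yd, gd, d1, d2, d3, d4⟩ := hcell 0 1 1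
  rw [e1] at a3 a4 b3 c4
  rw [e2] at b4 c3 d3 d4
  have nab : ya ≠ yb := by rintro rfl; exact a4 b2
  have nac : ya ≠ yc := by rintro rfl; exact a3 c1
  have nad : ya ≠ yd := by rintro rfl; exact a3 d1
  have nbc : yb ≠ yc := by rintro rfl; exact b3 c1
  have nbd : yb ≠ yd := by rintro rfl; exact b3 d1
  have ncd : yc ≠ yd := by rintro rfl; exact c4 d2
  have hsub : ({ya, yb, yc, yd} : Finset E) ⊆ G := by
    intro z hz
    simp only [mem_insert, mem_singleton] at hz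
    rcases hz with rfl | rfl | rfl | rfl <;> assumption
  have hc4 : ({ya, yb, yc, yd} : Finset E).card = 4 := by
    rw [card_insert_of_notMem, card_insert_of_notMem, card_pair ncd]
    · simp [nbc, nbd]
    · simp [nab, nac, nad]
  have hc1 : (G \ {ya, yb, yc, yd}).card = 1 := by
    rw [card_sdiff_of_subset hsub, hG, hc4]
  obtain ⟨yr, hyr⟩ := card_eq_one.1 hc1
  have hr : yr ∈ G \ {ya, yb, yc, yd} := by rw [hyr]; simp
  rw [mem_sdiff] at hr
  simp only [mem_insert, mem_singleton, not_or] at hr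
  let x : Fin 5 → E := ![ya, yb, yc, yd, yr]
  have hxi : Function.Injective x := by
    intro i j hij
    fin_cases i <;> fin_cases j <;> simp_all [x, Matrix.cons_val, eq_comm]
  have hxG : ∀ i, x i ∈ G := by
    intro i
    fin_cases i
    · exact ga
    · exact gb
    · exact gc
    · exact gd
    · exact hr.1
  have hxs : ∀ g ∈ G, ∃ i, x i = g := by
    intro g hg
    by_cases h : g ∈ ({ya, yb, yc, yd} : Finset E)
    · simp only [mem_insert, mem_singleton] at h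
      rcases h with rfl | rfl | rfl | rfl
      · exact ⟨0, rfl⟩
      · exact ⟨1, rfl⟩
      · exact ⟨2, rfl⟩
      · exact ⟨3, rfl⟩
    · have h1 : g ∈ G \ {ya, yb, yc, yd} := mem_sdiff.2 ⟨hg, h⟩
      rw [hyr, mem_singleton] at h1
      exact ⟨4, h1.symm⟩
  -- the Boolean functions
  let C : Fin 4 → Fin 2 → Fin 5 → Bool := fun k i e => decide (x e ∈ c k i)
  let D : Fin 4 → Fin 2 → Fin 5 → Bool := fun k j e => decide (x e ∈ d k j)
  have hok : ∀ k e, Ok (C k 0 e) (C k 1 e) (D k 0 e) (D k 1 e) := by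
    intro k e
    rcases htype k (x e) (hxG e) with h | h | ⟨i, j, h1, h2, h3, h4⟩
    · left
      exact ⟨by simpa [C] using h 0, by simpa [C] using h 1⟩
    · right; left
      exact ⟨by simpa [D] using h 0, by simpa [D] using h 1⟩
    · right; right
      fin_cases i <;> fin_cases j <;> simp_all [C, D]
  have hV : ∀ k, (mask (C k 0), mask (C k 1), mask (D k 0), mask (D k 1)) ∈ V := by
    intro k
    refine mem_V (C k) (D k) ?_ (hok k)
    intro i j
    obtain ⟨y, hy, h1, h2, h3, h4⟩ := hcell k i j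
    obtain ⟨e, rfl⟩ := hxs y hy
    exact ⟨e, by simpa [C] using h1, by simpa [D] using h2, by simpa [C] using h3,
      by simpa [D] using h4⟩
  have sA : ∀ k k' i j, rep k i j = rep k' i j →
      bt A (Nat.land (mask (C k i)) (mask (D k' j))) = true := by
    intro k k' i j h
    obtain ⟨y, hy, h1, h2⟩ := hsame k k' i j h
    obtain ⟨e, rfl⟩ := hxs y hy
    exact btA _ _ ⟨e, by simpa [C] using h1, by simpa [D] using h2⟩
  have sB : ∀ k k' i j, rep k i j ≠ rep k' i j →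
      bt B (Nat.land (mask (C k i)) (mask (D k' j))) = true := by
    intro k k' i j h
    refine btB _ _ ?_
    have h1 := hdiff k k' i j h
    have h2 : (G.filter fun y => y ∈ c k i ∧ y ∈ d k' j) =
        (univ.filter fun e => C k i e = true ∧ D k' j e = true).map ⟨x, hxi⟩ := by
      ext y
      simp only [mem_filter, mem_map, mem_univ, true_and, Function.Embedding.coeFn_mk, C, D,
        decide_eq_true_eq]
      constructor
      · rintro ⟨h3, h4⟩
        obtain ⟨e, rfl⟩ := hxs y h3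
        exact ⟨e, h4, rfl⟩
      · rintro ⟨e, h3, rfl⟩
        exact ⟨hxG e, h3⟩
    rw [h2, card_map] at h1
    exact h1
  -- the check
  have hT0 : chk (mask (C 0 0), mask (C 0 1), mask (D 0 0), mask (D 0 1)) = true := by
    have hinj : Function.Injective ![(0 : Fin 5), 1, 2, 3, 4] := by decide
    obtain ⟨t, ht, he⟩ := ent_of (C 0) (D 0) 0 1 2 3 4 hinj
      ⟨by simpa [C, x] using a1, by simpa [D, x] using a2, by simpa [C, x] using a3,
        by simpa [D, x] using a4⟩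
      ⟨by simpa [C, x] using b1, by simpa [D, x] using b2, by simpa [C, x] using b3,
        by simpa [D, x] using b4⟩
      ⟨by simpa [C, x] using c1, by simpa [D, x] using c2, by simpa [C, x] using c3,
        by simpa [D, x] using c4⟩
      ⟨by simpa [C, x] using d1, by simpa [D, x] using d2, by simpa [C, x] using d3,
        by simpa [D, x] using d4⟩ (hok 0 4)
    rw [he]
    exact List.all_eq_true.1 check _ (List.mem_map.2 ⟨t, ht, rfl⟩)
  have k01 : comp B A A A (mask (C 0 0), mask (C 0 1), mask (D 0 0), mask (D 0 1))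
      (mask (C 1 0), mask (C 1 1), mask (D 1 0), mask (D 1 1)) = true := by
    simp only [comp, Bool.and_eq_true]
    exact ⟨⟨⟨⟨⟨⟨⟨sB 0 1 0 0 (by decide), sB 1 0 0 0 (by decide)⟩, sA 0 1 0 1 (by decide)⟩,
      sA 1 0 0 1 (by decide)⟩, sA 0 1 1 0 (by decide)⟩, sA 1 0 1 0 (by decide)⟩,
      sA 0 1 1 1 (by decide)⟩, sA 1 0 1 1 (by decide)⟩
  have k02 : comp A B B A (mask (C 0 0), mask (C 0 1), mask (D 0 0), mask (D 0 1))
      (mask (C 2 0), mask (C 2 1), mask (D 2 0), mask (D 2 1)) = true := by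
    simp only [comp, Bool.and_eq_true]
    exact ⟨⟨⟨⟨⟨⟨⟨sA 0 2 0 0 (by decide), sA 2 0 0 0 (by decide)⟩, sB 0 2 0 1 (by decide)⟩,
      sB 2 0 0 1 (by decide)⟩, sB 0 2 1 0 (by decide)⟩, sB 2 0 1 0 (by decide)⟩,
      sA 0 2 1 1 (by decide)⟩, sA 2 0 1 1 (by decide)⟩
  have k03 : comp A A A B (mask (C 0 0), mask (C 0 1), mask (D 0 0), mask (D 0 1))
      (mask (C 3 0), mask (C 3 1), mask (D 3 0), mask (D 3 1)) = true := by
    simp only [comp, Bool.and_eq_true]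
    exact ⟨⟨⟨⟨⟨⟨⟨sA 0 3 0 0 (by decide), sA 3 0 0 0 (by decide)⟩, sA 0 3 0 1 (by decide)⟩,
      sA 3 0 0 1 (by decide)⟩, sA 0 3 1 0 (by decide)⟩, sA 3 0 1 0 (by decide)⟩,
      sB 0 3 1 1 (by decide)⟩, sB 3 0 1 1 (by decide)⟩
  have k13 : comp B A A B (mask (C 1 0), mask (C 1 1), mask (D 1 0), mask (D 1 1))
      (mask (C 3 0), mask (C 3 1), mask (D 3 0), mask (D 3 1)) = true := by
    simp only [comp, Bool.and_eq_true]
    exact ⟨⟨⟨⟨⟨⟨⟨sB 1 3 0 0 (by decide), sB 3 1 0 0 (by decide)⟩, sA 1 3 0 1 (by decide)⟩,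
      sA 3 1 0 1 (by decide)⟩, sA 1 3 1 0 (by decide)⟩, sA 3 1 1 0 (by decide)⟩,
      sB 1 3 1 1 (by decide)⟩, sB 3 1 1 1 (by decide)⟩
  have k12 : comp B B B A (mask (C 1 0), mask (C 1 1), mask (D 1 0), mask (D 1 1))
      (mask (C 2 0), mask (C 2 1), mask (D 2 0), mask (D 2 1)) = true := by
    simp only [comp, Bool.and_eq_true]
    exact ⟨⟨⟨⟨⟨⟨⟨sB 1 2 0 0 (by decide), sB 2 1 0 0 (by decide)⟩, sB 1 2 0 1 (by decide)⟩,
      sB 2 1 0 1 (by decide)⟩, sB 1 2 1 0 (by decide)⟩, sB 2 1 1 0 (by decide)⟩,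
      sA 1 2 1 1 (by decide)⟩, sA 2 1 1 1 (by decide)⟩
  have k32 : comp A B B B (mask (C 3 0), mask (C 3 1), mask (D 3 0), mask (D 3 1))
      (mask (C 2 0), mask (C 2 1), mask (D 2 0), mask (D 2 1)) = true := by
    simp only [comp, Bool.and_eq_true]
    exact ⟨⟨⟨⟨⟨⟨⟨sA 3 2 0 0 (by decide), sA 2 3 0 0 (by decide)⟩, sB 3 2 0 1 (by decide)⟩,
      sB 2 3 0 1 (by decide)⟩, sB 3 2 1 0 (by decide)⟩, sB 2 3 1 0 (by decide)⟩,
      sB 3 2 1 1 (by decide)⟩, sB 2 3 1 1 (by decide)⟩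
  unfold chk go at hT0
  have h1 := List.all_eq_true.1 hT0 _ (List.mem_filter.2 ⟨hV 1, k01⟩)
  have h2 := List.all_eq_true.1 h1 _ (List.mem_filter.2 ⟨hV 3, k03⟩)
  rw [k13, Bool.not_true, Bool.false_or] at h2
  have h3 := List.all_eq_true.1 h2 _ (List.mem_filter.2 ⟨hV 2, k02⟩)
  rw [k12, k32] at h3
  exact absurd h3 (by decide)

end Pool.Agent.H34CK
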